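import Pool.Agent.K4H37.MT.Gen

set_option autoImplicit false
set_option linter.unusedSectionVars false
set_option linter.unusedSimpArgs false

/-!
# Trinomials in monomial matrices
-/

namespace Pool.Agent.K4H37.MT

open Matrix TH57.Thr
open scoped commutatorElement

open Pool.Agent.K4H37.UG (size1 size)

section bs

variable {R : Type} [Ring R] {κ μ ν : Type} [Fintype κ] [DecidableEq κ] [Fintype μ] [DecidableEq μ]
  [Fintype ν] [DecidableEq ν] {U : Subgroup Rˣ}

/-- the block sum of two invertible matrices -/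
def blockSum (A : (Matrix κ κ R)ˣ) (B : (Matrix μ μ R)ˣ) : (Matrix (κ ⊕ μ) (κ ⊕ μ) R)ˣ where
  val := fromBlocks A.val 0 0 B.val
  inv := fromBlocks (A⁻¹).val 0 0 (B⁻¹).val
  val_inv := by
    rw [Matrix.fromBlocks_multiply, ← Matrix.fromBlocks_one]
    simp
  inv_val := by
    rw [Matrix.fromBlocks_multiply, ← Matrix.fromBlocks_one]
    simp

theorem blockSum_mul (A A' : (Matrix κ κ R)ˣ) (B B' : (Matrix μ μ R)ˣ) :
    blockSum A B * blockSum A' B' = blockSum (A * A') (B * B') := by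
  apply Units.ext
  change fromBlocks A.val 0 0 B.val * fromBlocks A'.val 0 0 B'.val = fromBlocks (A * A').val 0 0 (B * B').val
  rw [Matrix.fromBlocks_multiply]
  simp

theorem blockSum_inv (A : (Matrix κ κ R)ˣ) (B : (Matrix μ μ R)ˣ) :
    (blockSum A B)⁻¹ = blockSum A⁻¹ B⁻¹ := Units.ext rfl

theorem blockSum_one (A : (Matrix κ κ R)ˣ) :
    blockSum A (1 : (Matrix μ μ R)ˣ) = Units.map (stm μ) A := Units.ext rfl

theorem re_comm (A : (Matrix κ κ R)ˣ) (B : (Matrix μ μ R)ˣ) :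
    Units.map (re (Equiv.sumComm μ κ)) (blockSum A B) = blockSum B A := by
  apply Units.ext
  ext (i | i) (j | j) <;> simp [re, blockSum]

theorem TT_blockSum {A : (Matrix κ κ R)ˣ} {B : (Matrix μ μ R)ˣ} (hA : TT U A) (hB : TT U B) :
    TT U (blockSum A B) := TT_tri U A B 0 _ rfl hA hB

theorem TT_blockSum_inv (A : (Matrix κ κ R)ˣ) : TT U (blockSum A A⁻¹) := by
  have h1 : blockSum A A⁻¹ = ⁅blockSum A (1 : (Matrix κ κ R)ˣ),
      (pu (Equiv.sumComm κ κ) : (Matrix (κ ⊕ κ) (κ ⊕ κ) R)ˣ)⁆ := by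
    have h2 := re_eq (R := R) (Equiv.sumComm κ κ) (blockSum A (1 : (Matrix κ κ R)ˣ))⁻¹
    rw [blockSum_inv, re_comm] at h2
    rw [commutatorElement_def, mul_assoc, mul_assoc, ← mul_assoc (pu _), blockSum_inv, ← h2,
      blockSum_mul]
    simp
  rw [h1]
  apply TT_of_mem U _ (commutator_le_HH U ?_)
  rw [commutator_def]
  exact Subgroup.commutator_mem_commutator (Subgroup.mem_top _) (Subgroup.mem_top _)

/-- transfer of the class to a reindexed matrix -/
theorem TT_compare (a : (Matrix κ κ R)ˣ) (m : (Matrix (κ ⊕ ν) (κ ⊕ ν) R)ˣ)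
    (h : TT U (m * (Units.map (stm ν) a)⁻¹)) (e : μ ≃ κ ⊕ ν) :
    TT U (blockSum a (Units.map (re e) m)⁻¹) := by
  have h1 : TT U (blockSum (Units.map (stm ν) a) m⁻¹) := by
    have h2 : blockSum (Units.map (stm ν) a) m⁻¹
        = blockSum (Units.map (stm ν) a * m⁻¹) (1 : (Matrix (κ ⊕ ν) (κ ⊕ ν) R)ˣ)
          * blockSum m m⁻¹ := by
      rw [blockSum_mul]; simp
    rw [h2]
    refine TT_mul U _ _ (TT_blockSum ?_ (TT_one U)) (TT_blockSum_inv m)
    have h3 := TT_inv U _ h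
    rwa [_root_.mul_inv_rev, inv_inv] at h3
  let f : (κ ⊕ μ) ⊕ ν ≃ (κ ⊕ ν) ⊕ (κ ⊕ ν) :=
    { toFun := Sum.elim (Sum.elim (fun k => Sum.inl (Sum.inl k)) (fun x => Sum.inr (e x)))
        (fun n => Sum.inl (Sum.inr n))
      invFun := Sum.elim (Sum.elim (fun k => Sum.inl (Sum.inl k)) (fun n => Sum.inr n))
        (fun y => Sum.inl (Sum.inr (e.symm y)))
      left_inv := by rintro ((k | k) | k) <;> simp
      right_inv := by rintro ((k | k) | k) <;> simp }
  have h4 := TT_re U f _ h1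
  apply TT_unst (μ := ν)
  convert h4 using 1
  apply Units.ext
  ext ((i | i) | i) ((j | j) | j)
  · rfl
  · rfl
  · rfl
  · rfl
  · rfl
  · rfl
  · rfl
  · rfl
  · rfl

end bs

section gr

variable {G : Type} [Group G]

/-- The class of the invertible matrix `A` in the Whitehead group `Wh(G)` is zero (the form of the
frozen statement): after stabilisation by an identity block, `A` is `± g` on one diagonal entry
times an element of the commutator subgroup. -/
def ZeroInWh {κ : Type} [Fintype κ] [DecidableEq κ] (A : (Matrix κ κ (MonoidAlgebra ℤ G))ˣ) :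
    Prop :=
  ∃ (m : ℕ) (g : G) (ε : ℤˣ)
    (C : (Matrix (κ ⊕ Fin (m + 1)) (κ ⊕ Fin (m + 1)) (MonoidAlgebra ℤ G))ˣ),
    C ∈ commutator (Matrix (κ ⊕ Fin (m + 1)) (κ ⊕ Fin (m + 1)) (MonoidAlgebra ℤ G))ˣ ∧
    Matrix.fromBlocks A.val 0 0 (1 : Matrix (Fin (m + 1)) (Fin (m + 1)) (MonoidAlgebra ℤ G)) =
      Matrix.diagonal (fun i : κ ⊕ Fin (m + 1) =>
          if i = Sum.inr (0 : Fin (m + 1)) then
            (MonoidAlgebra.single g ((ε : ℤ)) : MonoidAlgebra ℤ G) else 1) * C.val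

theorem zero_of_TT {κ : Type} [Fintype κ] [DecidableEq κ]
    {A : (Matrix κ κ (MonoidAlgebra ℤ G))ˣ} (h : TT (TU G) A) : ZeroInWh A := by
  obtain ⟨μ, i1, i2, h1⟩ := h
  have h2 := (TT_more (TU G) A μ h1 (Fin 1)).1
  have hcard : Fintype.card (Fin (Fintype.card μ + 1)) = Fintype.card (μ ⊕ Fin 1) := by simp
  let e : Fin (Fintype.card μ + 1) ≃ (μ ⊕ Fin 1) := Fintype.equivOfCardEq hcard
  have h3 := re_mem (TU G) (Equiv.sumCongr (Equiv.refl κ) e) _ h2
  obtain ⟨u, ⟨g, ε, hu⟩, C, hC, h4⟩ := HH_form (TU G)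
    (Sum.inr (0 : Fin (Fintype.card μ + 1))) _ h3
  refine ⟨Fintype.card μ, g, ε, C, hC, ?_⟩
  have h5 := congrArg Units.val h4
  rw [Units.val_mul] at h5
  convert h5 using 1
  · ext (i | i) (j | j) <;> simp [stm, re, Matrix.one_apply]
  · congr 1
    change _ = dgm (Sum.inr (0 : Fin (Fintype.card μ + 1))) (u : MonoidAlgebra ℤ G)
    rw [dgm_apply, hu]
    congr 1
    funext i
    by_cases h : i = Sum.inr (0 : Fin (Fintype.card μ + 1))
    · subst h; simp
    · rw [if_neg h, Function.update_of_ne h]; rfl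

/-- the trivial unit `± g` -/
noncomputable def tu' (g : G) (ε : ℤˣ) : (MonoidAlgebra ℤ G)ˣ where
  val := MonoidAlgebra.single g (ε : ℤ)
  inv := MonoidAlgebra.single g⁻¹ (ε : ℤ)
  val_inv := by
    rw [MonoidAlgebra.single_mul_single, mul_inv_cancel, MonoidAlgebra.one_def]
    congr 1
    exact_mod_cast Int.units_coe_mul_self ε
  inv_val := by
    rw [MonoidAlgebra.single_mul_single, inv_mul_cancel, MonoidAlgebra.one_def]
    congr 1
    exact_mod_cast Int.units_coe_mul_self ε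

theorem TT_of_zero {κ : Type} [Fintype κ] [DecidableEq κ]
    {A : (Matrix κ κ (MonoidAlgebra ℤ G))ˣ} (h : ZeroInWh A) : TT (TU G) A := by
  obtain ⟨m, g, ε, C, hC, h1⟩ := h
  refine ⟨Fin (m + 1), inferInstance, inferInstance, ?_⟩
  have h2 : Units.map (stm (Fin (m + 1))) A
      = Units.map (dgm (Sum.inr (0 : Fin (m + 1)))) (tu' g ε) * C := by
    apply Units.ext
    rw [Units.val_mul]
    change fromBlocks A.val 0 0 1 = dgm (Sum.inr (0 : Fin (m + 1))) (tu' g ε).val * C.val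
    rw [h1, dgm_apply]
    congr 2
    funext i
    by_cases h : i = Sum.inr (0 : Fin (m + 1))
    · subst h; simp [tu']
    · rw [if_neg h, Function.update_of_ne h]; rfl
  rw [h2]
  exact mul_mem (dgm_mem_HH _ _ _ ⟨g, ε, rfl⟩) (commutator_le_HH _ hC)

/-- `A` and `B` have the same class in the Whitehead group: the block sum of `A` and the inverse
of `B` has class zero. -/
def SameClass {κ μ : Type} [Fintype κ] [DecidableEq κ] [Fintype μ] [DecidableEq μ]
    (A : (Matrix κ κ (MonoidAlgebra ℤ G))ˣ) (B : (Matrix μ μ (MonoidAlgebra ℤ G))ˣ) : Prop :=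
  ZeroInWh (blockSum A B⁻¹)

theorem SameClass.zero {κ μ : Type} [Fintype κ] [DecidableEq κ] [Fintype μ] [DecidableEq μ]
    {A : (Matrix κ κ (MonoidAlgebra ℤ G))ˣ} {B : (Matrix μ μ (MonoidAlgebra ℤ G))ˣ}
    (h : SameClass A B) (hB : ZeroInWh B) : ZeroInWh A := by
  apply zero_of_TT
  apply TT_unst (μ := μ)
  rw [← blockSum_one]
  have h1 : blockSum A (1 : (Matrix μ μ (MonoidAlgebra ℤ G))ˣ)
      = blockSum A B⁻¹ * blockSum (1 : (Matrix κ κ (MonoidAlgebra ℤ G))ˣ) B := by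
    rw [blockSum_mul]; simp
  rw [h1]
  exact TT_mul _ _ _ (TT_of_zero h) (TT_blockSum (TT_one _) (TT_of_zero hB))

/-- The monomial matrix with the entries `d i` in the positions `(i, α i)`. -/
noncomputable def monomial {N : ℕ} (d : Fin N → G) (α : Equiv.Perm (Fin N)) :
    Matrix (Fin N) (Fin N) (MonoidAlgebra ℤ G) :=
  Matrix.of fun i j => if α i = j then MonoidAlgebra.single (d i) 1 else 0

/-- The trinomial `1 + (monomial matrix with entries d i) - (permutation matrix of β)`. -/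
noncomputable def trinomial {N : ℕ} (d : Fin N → G) (α β : Equiv.Perm (Fin N)) :
    Matrix (Fin N) (Fin N) (MonoidAlgebra ℤ G) :=
  1 + monomial d α - monomial (fun _ => 1) β

/-- permutation matrices have the trivial class -/
theorem TT_perm {κ : Type} [Fintype κ] [DecidableEq κ] (e : Equiv.Perm κ) :
    TT (TU G) (pu e : (Matrix κ κ (MonoidAlgebra ℤ G))ˣ) := by
  have h := TT_im (Γ := G) (pu e : (Matrix κ κ ℤ)ˣ)
  convert h using 1
  apply Units.ext
  ext1 i j
  change (1 : Matrix κ κ (MonoidAlgebra ℤ G)) (e i) j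
    = Int.castRingHom (MonoidAlgebra ℤ G) ((1 : Matrix κ κ ℤ) (e i) j)
  by_cases h : e i = j <;> simp [h, Matrix.one_apply]

theorem pu_apply {R : Type} [Ring R] {κ : Type} [Fintype κ] [DecidableEq κ] (e : Equiv.Perm κ)
    (m l : κ) : (pu e : (Matrix κ κ R)ˣ).val m l = if e m = l then 1 else 0 := by
  change (1 : Matrix κ κ R) (e m) l = _
  rw [Matrix.one_apply]

theorem mat_mul_pu {R : Type} [Ring R] {κ : Type} [Fintype κ] [DecidableEq κ] (d : κ → R)
    (S T : Equiv.Perm κ) (k l : κ) :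
    (mat d S T * (pu S⁻¹ : (Matrix κ κ R)ˣ).val) k l =
      (if S⁻¹ k = l then d k else 0) + (if k = l then 1 else 0)
        - (if S⁻¹ (T k) = l then 1 else 0) := by
  rw [Matrix.mul_apply, mat_sum d S T k (fun m => (pu S⁻¹ : (Matrix κ κ R)ˣ).val m l), pu_apply,
    pu_apply, pu_apply]
  congr 1
  congr 1
  · simp only [mul_ite, mul_one, mul_zero]
  · have : S⁻¹ (S k) = k := by simp
    rw [this]

theorem trinomial_apply {N : ℕ} (d : Fin N → G) (α β : Equiv.Perm (Fin N)) (k l : Fin N) :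
    trinomial d α β k l = (if k = l then 1 else 0)
      + (if α k = l then MonoidAlgebra.single (d k) 1 else 0)
      - (if β k = l then MonoidAlgebra.single 1 1 else 0) := by
  unfold trinomial monomial
  rw [Matrix.sub_apply, Matrix.add_apply, Matrix.of_apply, Matrix.of_apply, Matrix.one_apply]

/-- reindexing of the trinomial -/
theorem trinomial_re {κ : Type} [Fintype κ] [DecidableEq κ] {N : ℕ} (e : Fin N ≃ κ)
    (m : (Matrix κ κ (MonoidAlgebra ℤ G))ˣ) (g : κ → G) (S T : Equiv.Perm κ)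
    (hm : m.val = mat (fun k => MonoidAlgebra.single (g k) 1) S T) :
    (Units.map (re e) (m * pu S⁻¹)).val = trinomial (fun k => g (e k))
      (e.trans ((S⁻¹ : Equiv.Perm κ).trans e.symm))
      (e.trans ((T.trans (S⁻¹ : Equiv.Perm κ)).trans e.symm)) := by
  ext1 k l
  have h1 : (Units.map (re e) (m * pu S⁻¹) : (Matrix (Fin N) (Fin N) (MonoidAlgebra ℤ G))ˣ).val k l
      = (m.val * (pu S⁻¹ : (Matrix κ κ (MonoidAlgebra ℤ G))ˣ).val) (e k) (e l) := rfl
  rw [h1, hm, mat_mul_pu, trinomial_apply,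
    add_comm (if k = l then (1 : MonoidAlgebra ℤ G) else 0)]
  simp only [Equiv.trans_apply, Equiv.symm_apply_eq, e.injective.eq_iff, MonoidAlgebra.one_def]

/-- from the representation to the trinomial -/
theorem trinomial_of_rep {X : Set G} {n c : ℕ} (A : (Matrix (Fin n) (Fin n) (MonoidAlgebra ℤ G))ˣ)
    (h : Rep (TU G) (YY X) c A.val) :
    ∃ (N : ℕ) (d : Fin N → G) (α β : Equiv.Perm (Fin N))
      (F : (Matrix (Fin N) (Fin N) (MonoidAlgebra ℤ G))ˣ),
      N ≤ n + c ∧ (∀ i, d i ∈ X ∨ d i = 1) ∧ F.val = trinomial d α β ∧ SameClass A F := by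
  obtain ⟨ν, i1, i2, d, S, T, hc, hd, hred⟩ := h
  obtain ⟨m, hm, hTT⟩ := hred.same
  have hd' : ∀ k, ∃ g : G, (g ∈ X ∨ g = 1) ∧ ((d k : (MonoidAlgebra ℤ G)ˣ) : MonoidAlgebra ℤ G) =
      MonoidAlgebra.single g 1 := by
    intro k
    rcases hd k with ⟨x, hx, h⟩ | h
    · exact ⟨x, Or.inl hx, by rw [h]; rfl⟩
    · exact ⟨1, Or.inr rfl, by rw [h]; rfl⟩
  choose g hg hg' using hd'
  have e : Fin (Fintype.card (Fin n ⊕ ν)) ≃ Fin n ⊕ ν := (Fintype.equivFin _).symm
  -- multiply by the inverse of the first permutation matrix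
  have hTT' : TT (TU G) ((m * (pu S⁻¹ : (Matrix (Fin n ⊕ ν) (Fin n ⊕ ν) (MonoidAlgebra ℤ G))ˣ))
      * (Units.map (stm ν) A)⁻¹) := by
    have h1 : (m * (pu S⁻¹ : (Matrix (Fin n ⊕ ν) (Fin n ⊕ ν) (MonoidAlgebra ℤ G))ˣ))
        * (Units.map (stm ν) A)⁻¹ = (m * (Units.map (stm ν) A)⁻¹) *
        ((Units.map (stm ν) A) * pu S⁻¹ * (Units.map (stm ν) A)⁻¹) := by
      group
    rw [h1]
    exact TT_mul _ _ _ hTT (TT_conj _ _ _ (TT_perm _))
  have hm' : m.val = mat (fun k => MonoidAlgebra.single (g k) 1) S T := by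
    rw [hm]
    congr 1
    funext k
    exact hg' k
  refine ⟨Fintype.card (Fin n ⊕ ν), fun k => g (e k),
    e.trans ((S⁻¹ : Equiv.Perm (Fin n ⊕ ν)).trans e.symm),
    e.trans ((T.trans (S⁻¹ : Equiv.Perm (Fin n ⊕ ν))).trans e.symm),
    Units.map (re e) (m * pu S⁻¹), ?_, fun k => hg _, trinomial_re e m g S T hm',
    zero_of_TT (TT_compare A _ hTT' e)⟩
  rw [Fintype.card_sum, Fintype.card_fin]
  omega

end gr

section two

/-- A sum of two monomial matrices is never invertible. -/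
theorem two_terms {G : Type} [Group G] {N : ℕ} (hN : 0 < N) (α β : Equiv.Perm (Fin N))
    (d d' : Fin N → G) (ε ε' : Fin N → ℤˣ) :
    ¬ IsUnit (Matrix.of fun i j =>
      (if α i = j then MonoidAlgebra.single (d i) ((ε i : ℤˣ) : ℤ) else 0) +
      (if β i = j then MonoidAlgebra.single (d' i) ((ε' i : ℤˣ) : ℤ) else 0) :
      Matrix (Fin N) (Fin N) (MonoidAlgebra ℤ G)) := by
  rintro ⟨u, hu⟩
  let φ : MonoidAlgebra ℤ G →+* ZMod 2 :=
    (Int.castRingHom (ZMod 2)).comp (MonoidAlgebra.lift ℤ ℤ G (1 : G →* ℤ)).toRingHom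
  have hφ : ∀ (g : G) (z : ℤ), φ (MonoidAlgebra.single g z) = (z : ZMod 2) := by
    intro g z
    simp [φ]
  have hs : ∀ z : ℤˣ, (((z : ℤˣ) : ℤ) : ZMod 2) = 1 := by
    intro z
    rcases Int.units_eq_one_or z with rfl | rfl
    · simp
    · decide
  have h1 : (u⁻¹).val.map φ * (u.val.map φ) = 1 := by
    rw [← Matrix.map_mul, Units.inv_mul]
    exact Matrix.map_one _ (map_zero φ) (map_one φ)
  have h2 : (u.val.map φ).mulVec (fun _ => 1) = 0 := by
    funext i
    rw [hu]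
    simp only [Matrix.mulVec, dotProduct, Matrix.map_apply, Matrix.of_apply, map_add, mul_one,
      Finset.sum_add_distrib, apply_ite φ, map_zero, hφ, hs, Finset.sum_ite_eq, Finset.mem_univ,
      if_true]
    exact (by decide : (1 : ZMod 2) + 1 = 0)
  have h3 : ((u⁻¹).val.map φ * (u.val.map φ)).mulVec (fun _ => 1) = 0 := by
    rw [← Matrix.mulVec_mulVec, h2, Matrix.mulVec_zero]
  rw [h1, Matrix.one_mulVec] at h3
  have h4 := congrFun h3 ⟨0, hN⟩
  simp at h4

end two

end Pool.Agent.K4H37.MT
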