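import Pool.Agent.K4H37.MT.Rep
import Pool.Agent.K4H37.UG.Basic

set_option autoImplicit false
set_option linter.unusedSectionVars false
set_option linter.unusedSimpArgs false

/-!
# Every matrix over an integral group ring is represented
-/

namespace Pool.Agent.K4H37.MT

open Matrix TH57.Thr
open scoped commutatorElement

open Pool.Agent.K4H37.UG (size1 size)

section rep

variable {G : Type} [Group G]

/-- the unit given by a group element -/
noncomputable def gu (g : G) : (MonoidAlgebra ℤ G)ˣ where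
  val := MonoidAlgebra.single g 1
  inv := MonoidAlgebra.single g⁻¹ 1
  val_inv := by rw [MonoidAlgebra.single_mul_single]; simp [MonoidAlgebra.one_def]
  inv_val := by rw [MonoidAlgebra.single_mul_single]; simp [MonoidAlgebra.one_def]

theorem gu_val (g : G) : (gu g : MonoidAlgebra ℤ G) = MonoidAlgebra.single g 1 := rfl

theorem gu_inv_val (g : G) : (((gu g)⁻¹ : (MonoidAlgebra ℤ G)ˣ) : MonoidAlgebra ℤ G) =
    MonoidAlgebra.single g⁻¹ 1 := rfl

theorem gu_mem (g : G) : gu g ∈ TU G := ⟨g, 1, by simp [gu_val]⟩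

theorem neg_one_mem : (-1 : (MonoidAlgebra ℤ G)ˣ) ∈ TU G := by
  refine ⟨1, -1, ?_⟩
  rw [Units.val_neg, Units.val_one, Units.val_neg, Units.val_one, MonoidAlgebra.one_def,
    ← MonoidAlgebra.single_neg]

theorem gu_one : gu (1 : G) = 1 := Units.ext rfl

/-- the units given by the elements of `X` -/
def YY (X : Set G) : Set (MonoidAlgebra ℤ G)ˣ := {y | ∃ x ∈ X, y = gu x}

theorem YY_mem {X : Set G} : ∀ y ∈ YY X, y ∈ TU G := by
  rintro y ⟨x, _, rfl⟩
  exact gu_mem x

theorem Qc.mono {R : Type} [Ring R] {U : Subgroup Rˣ} {Y : Set Rˣ} {c c' : ℕ} {a : R}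
    (h : Qc U Y c a) (hc : c ≤ c') : Qc U Y c' a := fun κ _ _ c'' A i j hA =>
  (h κ c'' A i j hA).mono (by omega)

theorem Q_pos {X : Set G} (x : G) (hx : x ∈ X ∨ x = 1) :
    Qc (TU G) (YY X) 27 (MonoidAlgebra.single x 1 : MonoidAlgebra ℤ G) :=
  Qc.pos neg_one_mem YY_mem (gu x) (by
    rcases hx with hx | rfl
    · exact Or.inl ⟨x, hx, rfl⟩
    · exact Or.inr gu_one)

theorem Q_neg {X : Set G} (x : G) (hx : x ∈ X ∨ x = 1) :
    Qc (TU G) (YY X) 5 (-MonoidAlgebra.single x⁻¹ 1 : MonoidAlgebra ℤ G) :=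
  Qc.inv YY_mem (gu x) (by
    rcases hx with hx | rfl
    · exact Or.inl ⟨x, hx, rfl⟩
    · exact Or.inr gu_one)

/-- the elements which can be added -/
def Ad (X : Set G) (a : MonoidAlgebra ℤ G) : Prop := ∃ c, Qc (TU G) (YY X) c a

theorem Ad.add {X : Set G} {a b : MonoidAlgebra ℤ G} (ha : Ad X a) (hb : Ad X b) :
    Ad X (a + b) := by
  obtain ⟨c, hc⟩ := ha
  obtain ⟨c', hc'⟩ := hb
  exact ⟨_, hc.add hc'⟩

theorem Ad.one (X : Set G) : Ad X (1 : MonoidAlgebra ℤ G) := ⟨_, Q_pos 1 (Or.inr rfl)⟩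

theorem Ad.neg {X : Set G} {a : MonoidAlgebra ℤ G} (ha : Ad X a) : Ad X (-a) := by
  obtain ⟨c, hc⟩ := ha
  obtain ⟨c', hc'⟩ := Ad.one X
  have := hc.mul hc'
  rw [mul_one] at this
  exact ⟨_, this⟩

theorem Ad.mul {X : Set G} {a b : MonoidAlgebra ℤ G} (ha : Ad X a) (hb : Ad X b) :
    Ad X (a * b) := by
  obtain ⟨c, hc⟩ := ha.neg
  obtain ⟨c', hc'⟩ := hb
  have := hc.mul hc'
  rw [neg_mul, neg_neg] at this
  exact ⟨_, this⟩

theorem Ad.group {X : Set G} (hX : Subgroup.closure X = ⊤) (g : G) :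
    Ad X (MonoidAlgebra.single g 1) := by
  have hg : g ∈ Subgroup.closure X := hX ▸ Subgroup.mem_top g
  have h : Ad X (MonoidAlgebra.single g 1) ∧ Ad X (MonoidAlgebra.single g⁻¹ 1) := by
    induction hg using Subgroup.closure_induction with
    | mem x hx =>
      refine ⟨⟨_, Q_pos x (Or.inl hx)⟩, ?_⟩
      have h1 : Ad X (-MonoidAlgebra.single x⁻¹ 1) := ⟨_, Q_neg x (Or.inl hx)⟩
      have h2 := h1.neg
      rwa [neg_neg] at h2
    | one =>
      rw [inv_one]
      exact ⟨Ad.one X, Ad.one X⟩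
    | mul x y _ _ hx hy =>
      constructor
      · have := hx.1.mul hy.1
        rwa [MonoidAlgebra.single_mul_single, one_mul] at this
      · have := hy.2.mul hx.2
        rwa [MonoidAlgebra.single_mul_single, one_mul, ← _root_.mul_inv_rev] at this
    | inv x _ hx =>
      rw [inv_inv]
      exact ⟨hx.2, hx.1⟩
  exact h.1

theorem Ad.nsmul {X : Set G} {a : MonoidAlgebra ℤ G} (ha : Ad X a) (n : ℕ) : Ad X (n • a) := by
  induction n with
  | zero => rw [zero_smul]; exact ⟨_, Qc.zero⟩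
  | succ n ih => rw [succ_nsmul]; exact ih.add ha

theorem Ad.all {X : Set G} (hX : Subgroup.closure X = ⊤) (a : MonoidAlgebra ℤ G) : Ad X a := by
  induction a using MonoidAlgebra.induction_linear with
  | zero => exact ⟨_, Qc.zero⟩
  | add a b ha hb => exact ha.add hb
  | single g z =>
    have h1 := Ad.group hX g
    rcases Int.natAbs_eq z with hz | hz
    · have := h1.nsmul z.natAbs
      rwa [MonoidAlgebra.smul_single, nsmul_one, ← hz] at this
    · have := (h1.nsmul z.natAbs).neg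
      rwa [MonoidAlgebra.smul_single, nsmul_one, ← MonoidAlgebra.single_neg, ← hz] at this

/-- adding a matrix -/
theorem Rep.add_matrix {κ : Type} [Fintype κ] [DecidableEq κ] {U : Subgroup (MonoidAlgebra ℤ G)ˣ}
    {Y : Set (MonoidAlgebra ℤ G)ˣ} (w : MonoidAlgebra ℤ G → ℕ) {c : ℕ}
    {A : Matrix κ κ (MonoidAlgebra ℤ G)} (h : Rep U Y c A) (B : Matrix κ κ (MonoidAlgebra ℤ G))
    (hB : ∀ i j, Qc U Y (w (B i j)) (B i j)) :
    Rep U Y (c + ∑ i, ∑ j, w (B i j)) (A + B) := by
  have key : ∀ T : Finset (κ × κ), Rep U Y (c + ∑ p ∈ T, w (B p.1 p.2))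
      (A + ∑ p ∈ T, Matrix.single p.1 p.2 (B p.1 p.2)) := by
    intro T
    induction T using Finset.induction_on with
    | empty => simpa using h
    | insert p T hp ih =>
      rw [Finset.sum_insert hp, Finset.sum_insert hp]
      have h1 := hB p.1 p.2 κ _ _ p.1 p.2 ih
      rw [show c + (w (B p.1 p.2) + ∑ p ∈ T, w (B p.1 p.2)) = c + ∑ p ∈ T, w (B p.1 p.2) +
        w (B p.1 p.2) by omega, add_comm (Matrix.single p.1 p.2 (B p.1 p.2)), ← add_assoc]
      exact h1
  have h2 := key Finset.univ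
  rw [Fintype.sum_prod_type, Fintype.sum_prod_type, ← Matrix.matrix_eq_sum_single B] at h2
  exact h2

theorem Q_univ_single (g : G) (z : ℤ) :
    Qc (TU G) (YY Set.univ) (27 * z.natAbs) (MonoidAlgebra.single g z : MonoidAlgebra ℤ G) := by
  have h1 : Qc (TU G) (YY Set.univ) 27 (MonoidAlgebra.single g 1 : MonoidAlgebra ℤ G) :=
    Q_pos g (Or.inl (Set.mem_univ g))
  have h2 : Qc (TU G) (YY Set.univ) 27 (-MonoidAlgebra.single g 1 : MonoidAlgebra ℤ G) := by
    have := Q_neg (X := Set.univ) g⁻¹ (Or.inl (Set.mem_univ _))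
    rw [inv_inv] at this
    exact this.mono (by omega)
  have h3 : ∀ a : MonoidAlgebra ℤ G, Qc (TU G) (YY Set.univ) 27 a →
      ∀ n : ℕ, Qc (TU G) (YY Set.univ) (27 * n) (n • a) := by
    intro a ha n
    induction n with
    | zero => rw [zero_smul]; exact Qc.zero
    | succ n ih => rw [succ_nsmul]; exact (ih.add ha).mono (by omega)
  rcases Int.natAbs_eq z with hz | hz
  · have := h3 _ h1 z.natAbs
    rwa [MonoidAlgebra.smul_single, nsmul_one, ← hz] at this
  · have := h3 _ h2 z.natAbs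
    rwa [← MonoidAlgebra.single_neg, MonoidAlgebra.smul_single, smul_neg, nsmul_one, ← hz] at this

theorem Q_univ (a : MonoidAlgebra ℤ G) : Qc (TU G) (YY Set.univ) (27 * size1 a) a := by
  have h1 : a = ∑ g ∈ a.coeff.support, MonoidAlgebra.single g (a.coeff g) := by
    apply MonoidAlgebra.coeff_injective
    rw [MonoidAlgebra.coeff_sum]
    exact (Finsupp.sum_single a.coeff).symm
  have key : ∀ T : Finset G, Qc (TU G) (YY Set.univ) (∑ g ∈ T, 27 * (a.coeff g).natAbs)
      (∑ g ∈ T, MonoidAlgebra.single g (a.coeff g) : MonoidAlgebra ℤ G) := by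
    classical
    intro T
    induction T using Finset.induction_on with
    | empty => simpa using Qc.zero
    | insert g T hg ih =>
      rw [Finset.sum_insert hg, Finset.sum_insert hg]
      exact (Q_univ_single g _).add ih
  have h2 := key a.coeff.support
  rw [← h1, ← Finset.mul_sum] at h2
  exact h2

theorem rep_gen {X : Set G} (hX : Subgroup.closure X = ⊤) {κ : Type} [Fintype κ] [DecidableEq κ]
    (A : Matrix κ κ (MonoidAlgebra ℤ G)) : ∃ c, Rep (TU G) (YY X) c A := by
  choose w hw using Ad.all hX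
  have h := Rep.add_matrix (κ := κ) w (Rep.base (U := TU G) (Y := YY X)) (A - 1)
    (fun i j => hw _)
  rw [add_sub_cancel] at h
  exact ⟨_, h⟩

theorem rep_univ {κ : Type} [Fintype κ] [DecidableEq κ]
    (A : Matrix κ κ (MonoidAlgebra ℤ G)) : Rep (TU G) (YY Set.univ) (27 * size (A - 1)) A := by
  have h := Rep.add_matrix (κ := κ) (fun a => 27 * size1 a)
    (Rep.base (U := TU G) (Y := YY Set.univ)) (A - 1) (fun i j => Q_univ _)
  rw [add_sub_cancel, zero_add] at h
  simp only [← Finset.mul_sum] at h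
  exact h

end rep

end Pool.Agent.K4H37.MT
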