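import Pool.Agent.TH57.Thr.Asm

set_option autoImplicit false
set_option linter.unusedSectionVars false

/-!
# Stably trivial matrices and the elimination of unknowns
-/

namespace Pool.Agent.K4H37.MT

open Matrix TH57.Thr
open scoped commutatorElement

section triv

variable {R : Type} [Ring R] {κ μ ν : Type} [Fintype κ] [DecidableEq κ] [Fintype μ] [DecidableEq μ]
  [Fintype ν] [DecidableEq ν] {U : Subgroup Rˣ}

/-- `W` is invertible and its class is trivial -/
def Triv (U : Subgroup Rˣ) (W : Matrix ν ν R) : Prop :=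
  ∃ w : (Matrix ν ν R)ˣ, (w : Matrix ν ν R) = W ∧ TT U w

theorem Triv.one : Triv U (1 : Matrix ν ν R) := ⟨1, rfl, TT_one U⟩

theorem Triv.mul {W W' : Matrix ν ν R} (h : Triv U W) (h' : Triv U W') : Triv U (W * W') := by
  obtain ⟨w, rfl, hw⟩ := h
  obtain ⟨w', rfl, hw'⟩ := h'
  exact ⟨w * w', rfl, TT_mul U _ _ hw hw'⟩

theorem Triv.inv {w : (Matrix ν ν R)ˣ} (h : Triv U (w : Matrix ν ν R)) :
    Triv U ((w⁻¹ : (Matrix ν ν R)ˣ) : Matrix ν ν R) := by
  obtain ⟨w', hw, hw'⟩ := h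
  have : w' = w := Units.ext hw
  subst this
  exact ⟨_, rfl, TT_inv U _ hw'⟩

theorem Triv.of_mul_right {W W' : Matrix ν ν R} (h : Triv U W') (h' : Triv U (W * W')) :
    Triv U W := by
  obtain ⟨w', rfl, hw'⟩ := h
  obtain ⟨v, hv, hv'⟩ := h'
  refine ⟨v * w'⁻¹, ?_, TT_mul U _ _ hv' (TT_inv U _ hw')⟩
  rw [Units.val_mul, hv, mul_assoc, Units.mul_inv, mul_one]

theorem Triv.re {W : Matrix ν ν R} (e : μ ≃ ν) (h : Triv U W) : Triv U (W.submatrix e e) := by
  obtain ⟨w, rfl, hw⟩ := h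
  exact ⟨Units.map (TH57.Thr.re e) w, rfl, TT_re U e w hw⟩

/-- block triangular units -/
def lowU (a : (Matrix κ κ R)ˣ) (b : (Matrix μ μ R)ˣ) (c : Matrix μ κ R) :
    (Matrix (κ ⊕ μ) (κ ⊕ μ) R)ˣ where
  val := fromBlocks a.val 0 c b.val
  inv := fromBlocks (a⁻¹).val 0 (-((b⁻¹).val * c * (a⁻¹).val)) (b⁻¹).val
  val_inv := by
    rw [Matrix.fromBlocks_multiply, ← Matrix.fromBlocks_one]
    congr 1
    · simp
    · simp
    · rw [Matrix.mul_neg, ← Matrix.mul_assoc, ← Matrix.mul_assoc, Units.mul_inv, Matrix.one_mul,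
        add_neg_cancel]
    · simp
  inv_val := by
    rw [Matrix.fromBlocks_multiply, ← Matrix.fromBlocks_one]
    congr 1
    · simp
    · simp
    · rw [Matrix.neg_mul, Matrix.mul_assoc ((b⁻¹).val * c), Units.inv_mul, Matrix.mul_one,
        neg_add_cancel]
    · simp

theorem Triv.lower {A : Matrix κ κ R} {B : Matrix μ μ R} (C : Matrix μ κ R) (hA : Triv U A)
    (hB : Triv U B) : Triv U (fromBlocks A 0 C B) := by
  obtain ⟨a, rfl, ha⟩ := hA
  obtain ⟨b, rfl, hb⟩ := hB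
  exact ⟨lowU a b C, rfl, TT_tri U a b C _ rfl ha hb⟩

theorem Triv.upper {A : Matrix κ κ R} {B : Matrix μ μ R} (C : Matrix κ μ R) (hA : Triv U A)
    (hB : Triv U B) : Triv U (fromBlocks A C 0 B) := by
  have h := (Triv.lower C hB hA).re (Equiv.sumComm κ μ)
  convert h using 1
  ext (i | i) (j | j) <;> simp

theorem Triv.unit {u : Rˣ} (hu : u ∈ U) : Triv U (Matrix.of fun (_ _ : Unit) => (u : R)) := by
  refine ⟨Units.map (dgm ()) u, ?_, TT_of_mem U _ (dgm_mem_HH U () u hu)⟩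
  ext i j
  change dgm () (u : R) i j = (u : R)
  rw [dgm_apply, Matrix.diagonal_apply, if_pos rfl]
  simp

/-- lower triangular matrices -/
theorem Triv.fin : ∀ (n : ℕ) (W : Matrix (Fin n) (Fin n) R), (∀ i j, i < j → W i j = 0) →
    (∀ i, ∃ u ∈ U, W i i = (u : R)) → Triv U W
  | 0, W, _, _ => ⟨1, by ext i; exact i.elim0, TT_one U⟩
  | n + 1, W, h0, h1 => by
    let e : Fin (n + 1) ≃ Fin n ⊕ Unit :=
      (finSumFinEquiv (m := n) (n := 1)).symm.trans (Equiv.sumCongr (Equiv.refl _) finOneEquiv)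
    have ih := Triv.fin n (Matrix.of fun i j => W i.castSucc j.castSucc)
      (fun i j hij => h0 _ _ (by simpa using hij)) (fun i => h1 _)
    obtain ⟨u, hu, hu'⟩ := h1 (Fin.last n)
    have h2 := (Triv.lower (Matrix.of fun (_ : Unit) j => W (Fin.last n) j.castSucc) ih
      (Triv.unit hu)).re e
    convert h2 using 1
    have el : ∀ i : Fin n, e i.castSucc = Sum.inl i := by
      intro i
      simp [e]
    have er : e (Fin.last n) = Sum.inr () := by
      simp only [e, Equiv.trans_apply]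
      have : (finSumFinEquiv (m := n) (n := 1)).symm (Fin.last n) = Sum.inr 0 := by
        rw [Equiv.symm_apply_eq]
        rfl
      rw [this]
      rfl
    ext i j
    rw [Matrix.submatrix_apply]
    refine Fin.lastCases ?_ (fun i => ?_) i <;> refine Fin.lastCases ?_ (fun j => ?_) j
    · rw [er, Matrix.fromBlocks_apply₂₂, hu']; rfl
    · rw [er, el, Matrix.fromBlocks_apply₂₁]; rfl
    · rw [er, el, Matrix.fromBlocks_apply₁₂, h0 _ _ (Fin.castSucc_lt_last i)]; rfl
    · rw [el, el, Matrix.fromBlocks_apply₁₁]; rfl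

theorem Triv.neg_one (h : (-1 : Rˣ) ∈ U) (n : ℕ) : Triv U (-1 : Matrix (Fin n) (Fin n) R) := by
  apply Triv.fin
  · intro i j hij
    rw [Matrix.neg_apply, Matrix.one_apply_ne (ne_of_lt hij), neg_zero]
  · intro i
    exact ⟨-1, h, by rw [Matrix.neg_apply, Matrix.one_apply_eq]; simp⟩

end triv

section red

variable {R : Type} [Ring R] {κ μ ν : Type} [Fintype κ] [DecidableEq κ] [Fintype μ] [DecidableEq μ]
  [Fintype ν] [DecidableEq ν] {U : Subgroup Rˣ}

/-- The unknowns in `ν` can be eliminated from the system `M`, and the system `A` remains. -/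
def Red (U : Subgroup Rˣ) (M : Matrix (κ ⊕ ν) (κ ⊕ ν) R) (A : Matrix κ κ R) : Prop :=
  Triv U M.toBlocks₂₂ ∧ ∃ X : Matrix ν κ R,
    M.toBlocks₁₁ + M.toBlocks₁₂ * X = A ∧ M.toBlocks₂₁ + M.toBlocks₂₂ * X = 0

theorem Red.add {M : Matrix (κ ⊕ ν) (κ ⊕ ν) R} {A : Matrix κ κ R} (h : Red U M A)
    (Z : Matrix κ κ R) : Red U (M + fromBlocks Z 0 0 0) (A + Z) := by
  obtain ⟨h1, X, h2, h3⟩ := h
  rw [← Matrix.fromBlocks_toBlocks M] at h1 h2 h3 ⊢
  simp only [Matrix.toBlocks_fromBlocks₁₁, Matrix.toBlocks_fromBlocks₁₂,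
    Matrix.toBlocks_fromBlocks₂₁, Matrix.toBlocks_fromBlocks₂₂] at h1 h2 h3
  refine ⟨?_, X, ?_, ?_⟩
  · simpa [Matrix.fromBlocks_add] using h1
  · simp only [Matrix.fromBlocks_add, Matrix.toBlocks_fromBlocks₁₁, Matrix.toBlocks_fromBlocks₁₂,
      add_zero]
    rw [← h2]
    abel
  · simpa [Matrix.fromBlocks_add] using h3

theorem Red.trans {M' : Matrix ((κ ⊕ ν) ⊕ μ) ((κ ⊕ ν) ⊕ μ) R} {M : Matrix (κ ⊕ ν) (κ ⊕ ν) R}
    {A : Matrix κ κ R} (h' : Red U M' M) (h : Red U M A) :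
    Red U (M'.submatrix (Equiv.sumAssoc κ ν μ).symm (Equiv.sumAssoc κ ν μ).symm) A := by
  obtain ⟨h1', X', h2', h3'⟩ := h'
  obtain ⟨h1, X, h2, h3⟩ := h
  -- entrywise
  have p : ∀ k l, M' (Sum.inl k) (Sum.inl l) + ∑ m, M' (Sum.inl k) (Sum.inr m) * X' m l = M k l :=
    fun k l => congrFun (congrFun h2' k) l
  have q : ∀ k l, M' (Sum.inr k) (Sum.inl l) + ∑ m, M' (Sum.inr k) (Sum.inr m) * X' m l = 0 :=
    fun k l => congrFun (congrFun h3' k) l
  have r : ∀ k l, M (Sum.inl k) (Sum.inl l) + ∑ m, M (Sum.inl k) (Sum.inr m) * X m l = A k l :=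
    fun k l => congrFun (congrFun h2 k) l
  have s : ∀ k l, M (Sum.inr k) (Sum.inl l) + ∑ m, M (Sum.inr k) (Sum.inr m) * X m l = 0 :=
    fun k l => congrFun (congrFun h3 k) l
  set M'' := M'.submatrix (Equiv.sumAssoc κ ν μ).symm (Equiv.sumAssoc κ ν μ).symm with hM''
  let Y : Matrix (ν ⊕ μ) κ R := Matrix.of fun a l =>
    Sum.elim (fun n => X n l) (fun m => X' m (Sum.inl l) + ∑ n, X' m (Sum.inr n) * X n l) a
  have key : ∀ (a : (κ ⊕ ν) ⊕ μ) (l : κ),
      M' a (Sum.inl (Sum.inl l)) + (∑ n, M' a (Sum.inl (Sum.inr n)) * X n l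
        + ∑ m, M' a (Sum.inr m) * (X' m (Sum.inl l) + ∑ n, X' m (Sum.inr n) * X n l))
      = (M' a (Sum.inl (Sum.inl l)) + ∑ m, M' a (Sum.inr m) * X' m (Sum.inl l))
        + ∑ n, (M' a (Sum.inl (Sum.inr n)) + ∑ m, M' a (Sum.inr m) * X' m (Sum.inr n)) * X n l := by
    intro a l
    have e1 : ∑ m, M' a (Sum.inr m) * (X' m (Sum.inl l) + ∑ n, X' m (Sum.inr n) * X n l)
        = ∑ m, M' a (Sum.inr m) * X' m (Sum.inl l)
          + ∑ n, ∑ m, M' a (Sum.inr m) * X' m (Sum.inr n) * X n l := by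
      rw [Finset.sum_comm, ← Finset.sum_add_distrib]
      apply Finset.sum_congr rfl
      intro m _
      rw [mul_add, Finset.mul_sum]
      congr 1
      apply Finset.sum_congr rfl
      intro n _
      rw [mul_assoc]
    have e2 : ∑ n, (M' a (Sum.inl (Sum.inr n)) + ∑ m, M' a (Sum.inr m) * X' m (Sum.inr n)) * X n l
        = ∑ n, M' a (Sum.inl (Sum.inr n)) * X n l
          + ∑ n, ∑ m, M' a (Sum.inr m) * X' m (Sum.inr n) * X n l := by
      rw [← Finset.sum_add_distrib]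
      apply Finset.sum_congr rfl
      intro n _
      rw [add_mul, Finset.sum_mul]
    rw [e1, e2]
    abel
  refine ⟨?_, Y, ?_, ?_⟩
  · -- the block of the eliminated unknowns
    have hE : Triv U (fromBlocks (1 : Matrix ν ν R) 0
        (Matrix.of fun (m : μ) (n : ν) => X' m (Sum.inr n)) (1 : Matrix μ μ R)) :=
      Triv.lower _ Triv.one Triv.one
    refine Triv.of_mul_right hE ?_
    have h5 : M''.toBlocks₂₂ * (fromBlocks (1 : Matrix ν ν R) 0
        (Matrix.of fun (m : μ) (n : ν) => X' m (Sum.inr n)) (1 : Matrix μ μ R))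
        = fromBlocks M.toBlocks₂₂ (Matrix.of fun n m => M' (Sum.inl (Sum.inr n)) (Sum.inr m)) 0
          M'.toBlocks₂₂ := by
      ext (a | a) (b | b)
      · rw [Matrix.mul_apply, Fintype.sum_sum_type]
        simp only [Matrix.fromBlocks_apply₁₁, Matrix.fromBlocks_apply₂₁, Matrix.one_apply,
          mul_ite, mul_one, mul_zero, Finset.sum_ite_eq', Finset.mem_univ, if_true, Matrix.of_apply]
        exact p (Sum.inr a) (Sum.inr b)
      · rw [Matrix.mul_apply, Fintype.sum_sum_type]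
        simp only [Matrix.fromBlocks_apply₁₂, Matrix.fromBlocks_apply₂₂, Matrix.one_apply,
          mul_ite, mul_one, mul_zero, Finset.sum_ite_eq', Finset.mem_univ, if_true,
          Matrix.zero_apply, Finset.sum_const_zero, zero_add, Matrix.of_apply]
        rfl
      · rw [Matrix.mul_apply, Fintype.sum_sum_type]
        simp only [Matrix.fromBlocks_apply₁₁, Matrix.fromBlocks_apply₂₁, Matrix.one_apply,
          mul_ite, mul_one, mul_zero, Finset.sum_ite_eq', Finset.mem_univ, if_true, Matrix.of_apply]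
        exact q a (Sum.inr b)
      · rw [Matrix.mul_apply, Fintype.sum_sum_type]
        simp only [Matrix.fromBlocks_apply₁₂, Matrix.fromBlocks_apply₂₂, Matrix.one_apply,
          mul_ite, mul_one, mul_zero, Finset.sum_ite_eq', Finset.mem_univ, if_true,
          Matrix.zero_apply, Finset.sum_const_zero, zero_add]
        rfl
    rw [h5]
    exact Triv.upper _ h1 h1'
  · ext k l
    rw [Matrix.add_apply, Matrix.mul_apply, Fintype.sum_sum_type]
    have := key (Sum.inl (Sum.inl k)) l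
    rw [p] at this
    simp only [p] at this
    rw [r] at this
    exact this
  · ext k l
    rw [Matrix.add_apply, Matrix.mul_apply, Fintype.sum_sum_type]
    rcases k with k | k
    · have := key (Sum.inl (Sum.inr k)) l
      rw [p] at this
      simp only [p] at this
      rw [s] at this
      exact this
    · have := key (Sum.inr k) l
      rw [q] at this
      simp only [q, zero_mul, Finset.sum_const_zero, add_zero] at this
      exact this

/-- An invertible matrix has the same class as the matrix before the elimination. -/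
theorem Red.same {M : Matrix (κ ⊕ ν) (κ ⊕ ν) R} {a : (Matrix κ κ R)ˣ}
    (h : Red U M (a : Matrix κ κ R)) : ∃ m : (Matrix (κ ⊕ ν) (κ ⊕ ν) R)ˣ,
      (m : Matrix (κ ⊕ ν) (κ ⊕ ν) R) = M ∧ TT U (m * (Units.map (stm ν) a)⁻¹) := by
  obtain ⟨h1, X, h2, h3⟩ := h
  obtain ⟨t, ht, ht'⟩ := Triv.upper (A := (1 : Matrix κ κ R)) M.toBlocks₁₂ (Triv.one (U := U)) h1
  obtain ⟨e, he, he'⟩ := Triv.lower (B := (1 : Matrix ν ν R)) X (Triv.one (U := U) (ν := κ))
    (Triv.one (U := U))
  have h4 : M * (e : Matrix (κ ⊕ ν) (κ ⊕ ν) R) = ((t * Units.map (stm ν) a : (Matrix (κ ⊕ ν) (κ ⊕ ν) R)ˣ) :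
      Matrix (κ ⊕ ν) (κ ⊕ ν) R) := by
    rw [Units.val_mul, ht, he]
    change M * _ = _ * fromBlocks (a : Matrix κ κ R) 0 0 1
    conv_lhs => rw [← Matrix.fromBlocks_toBlocks M]
    rw [Matrix.fromBlocks_multiply, Matrix.fromBlocks_multiply]
    congr 1
    · rw [Matrix.mul_one, h2, Matrix.one_mul, Matrix.mul_zero, add_zero]
    · simp
    · rw [Matrix.mul_one, h3]; simp
    · simp
  refine ⟨t * Units.map (stm ν) a * e⁻¹, ?_, ?_⟩
  · rw [Units.val_mul, ← h4, mul_assoc, Units.mul_inv, mul_one]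
  · rw [mul_assoc t, mul_assoc t]
    exact TT_mul U _ _ ht' (TT_conj U _ _ (TT_inv U _ he'))

end red

end Pool.Agent.K4H37.MT
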