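import Pool.Agent.K4H37.MT.Step

set_option autoImplicit false
set_option linter.unusedSectionVars false
set_option linter.unusedSimpArgs false

/-!
# Representing matrices by diagonal plus permutation minus permutation
-/

namespace Pool.Agent.K4H37.MT

open Matrix TH57.Thr
open scoped commutatorElement

section rep

variable {R : Type} [Ring R] {κ μ ν : Type} [Fintype κ] [DecidableEq κ] [Fintype μ] [DecidableEq μ]
  [Fintype ν] [DecidableEq ν] {U : Subgroup Rˣ} {Y : Set Rˣ}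

/-- `A` is what remains of a system of the form diagonal plus permutation minus permutation after
the elimination of at most `c` unknowns. -/
def Rep (U : Subgroup Rˣ) (Y : Set Rˣ) (c : ℕ) (A : Matrix κ κ R) : Prop :=
  ∃ (ν : Type) (_ : Fintype ν) (_ : DecidableEq ν) (d : κ ⊕ ν → Rˣ) (S T : Equiv.Perm (κ ⊕ ν)),
    Fintype.card ν ≤ c ∧ (∀ k, d k ∈ Y ∨ d k = 1) ∧ Red U (mat (fun k => (d k : R)) S T) A

theorem Rep.mono {c c' : ℕ} {A : Matrix κ κ R} (h : Rep U Y c A) (hc : c ≤ c') : Rep U Y c' A := by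
  obtain ⟨ν, i1, i2, d, S, T, h1, h2, h3⟩ := h
  exact ⟨ν, i1, i2, d, S, T, h1.trans hc, h2, h3⟩

theorem Rep.of_red {c : ℕ} {B : Matrix (κ ⊕ μ) (κ ⊕ μ) R} {A : Matrix κ κ R}
    (h : Rep U Y c B) (h' : Red U B A) : Rep U Y (c + Fintype.card μ) A := by
  obtain ⟨ν, i1, i2, d, S, T, h1, h2, h3⟩ := h
  have h4 := h3.trans h'
  rw [mat_submatrix] at h4
  refine ⟨μ ⊕ ν, inferInstance, inferInstance, fun k => d ((Equiv.sumAssoc κ μ ν).symm k), _, _,
    ?_, fun k => h2 _, h4⟩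
  rw [Fintype.card_sum]
  omega

theorem Rep.base : Rep U Y 0 (1 : Matrix κ κ R) := by
  refine ⟨Empty, inferInstance, inferInstance, fun _ => 1, 1, 1, by simp, fun _ => Or.inr rfl, ?_⟩
  have : mat (fun _ : κ ⊕ Empty => ((1 : Rˣ) : R)) 1 1 = 1 := by
    rw [Units.val_one]; exact mat_one
  rw [this]
  refine ⟨⟨1, by ext i; exact i.elim, TT_one U⟩, 0, ?_, ?_⟩
  · ext i j
    simp [Matrix.toBlocks₁₁, Matrix.one_apply]
  · ext i
    exact i.elim

theorem Rep.sub {c : ℕ} {A : Matrix κ κ R} (h : Rep U Y c A) (hY : ∀ y ∈ Y, y ∈ U) (i j : κ)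
    (y : Rˣ) (hy : y ∈ Y ∨ y = 1) : Rep U Y (c + 5) (A - Matrix.single i j ((y⁻¹ : Rˣ) : R)) := by
  have hyU : y ∈ U := by
    rcases hy with hy | rfl
    · exact hY y hy
    · exact one_mem U
  obtain ⟨ν, i1, i2, d, S, T, h1, h2, h3⟩ := h
  have h4 := h3.add (- Matrix.single i j ((y⁻¹ : Rˣ) : R))
  have e1 : mat (fun k => (d k : R)) S T + fromBlocks (- Matrix.single i j ((y⁻¹ : Rˣ) : R)) 0 0 0
      = mat (fun k => (d k : R)) S T
        - Matrix.single (Sum.inl i : κ ⊕ ν) (Sum.inl j) ((y⁻¹ : Rˣ) : R) := by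
    ext (k | k) (l | l)
    · simp [Matrix.single_apply, sub_eq_add_neg]
    · simp [Matrix.single_apply, sub_eq_add_neg]
    · simp [Matrix.single_apply, sub_eq_add_neg]
    · simp [Matrix.single_apply, sub_eq_add_neg]
  rw [e1, ← sub_eq_add_neg] at h4
  have h5 := (step d S T (Sum.inl i) (Sum.inl j) y hyU).trans h4
  rw [mat_submatrix] at h5
  refine ⟨ν ⊕ Fin 5, inferInstance, inferInstance,
    fun k => nd d y ((Equiv.sumAssoc κ ν (Fin 5)).symm k), _, _, ?_, fun k => ?_, h5⟩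
  · rw [Fintype.card_sum, Fintype.card_fin]
    omega
  · beta_reduce
    generalize (Equiv.sumAssoc κ ν (Fin 5)).symm k = k'
    rcases k' with k' | a
    · exact h2 k'
    · fin_cases a
      · exact Or.inr rfl
      · exact Or.inr rfl
      · exact hy
      · exact Or.inr rfl
      · exact Or.inr rfl

theorem Rep.stab {c : ℕ} {A : Matrix κ κ R} (h : Rep U Y c A) (y : Rˣ) (hy : y ∈ Y ∨ y = 1) :
    Rep U Y c (fromBlocks A 0 0 (Matrix.of fun (_ _ : Unit) => (y : R))) := by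
  obtain ⟨ν, i1, i2, d, S, T, h1, h2, h3⟩ := h
  let e : (κ ⊕ Unit) ⊕ ν ≃ (κ ⊕ ν) ⊕ Unit :=
    { toFun := Sum.elim (Sum.elim (fun k => Sum.inl (Sum.inl k)) Sum.inr)
        (fun n => Sum.inl (Sum.inr n))
      invFun := Sum.elim (Sum.elim (fun k => Sum.inl (Sum.inl k)) Sum.inr)
        (fun u => Sum.inl (Sum.inr u))
      left_inv := by rintro ((k | k) | k) <;> rfl
      right_inv := by rintro ((k | k) | k) <;> rfl }
  have h4 := mat_submatrix (Sum.elim (fun k => (d k : R)) (fun _ : Unit => (y : R)))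
    (Equiv.sumCongr S 1) (Equiv.sumCongr T 1) e
  rw [mat_sum_one] at h4
  refine ⟨ν, i1, i2, fun k => Sum.elim d (fun _ => y) (e k),
    e.trans ((Equiv.sumCongr S 1).trans e.symm), e.trans ((Equiv.sumCongr T 1).trans e.symm),
    h1, ?_, ?_⟩
  · intro k
    beta_reduce
    generalize e k = k'
    rcases k' with k' | a
    · exact h2 k'
    · exact hy
  · obtain ⟨hW, X, h5, h6⟩ := h3
    have e2 : (fun k => ((Sum.elim d (fun _ : Unit => y) (e k) : Rˣ) : R))
        = fun k => Sum.elim (fun k => (d k : R)) (fun _ : Unit => (y : R)) (e k) := by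
      funext k
      generalize e k = k'
      rcases k' with k' | a <;> rfl
    rw [e2, ← h4]
    have p : ∀ k l, mat (fun k => (d k : R)) S T (Sum.inl k) (Sum.inl l)
        + ∑ m, mat (fun k => (d k : R)) S T (Sum.inl k) (Sum.inr m) * X m l = A k l :=
      fun k l => congrFun (congrFun h5 k) l
    have q : ∀ k l, mat (fun k => (d k : R)) S T (Sum.inr k) (Sum.inl l)
        + ∑ m, mat (fun k => (d k : R)) S T (Sum.inr k) (Sum.inr m) * X m l = 0 :=
      fun k l => congrFun (congrFun h6 k) l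
    refine ⟨hW, Matrix.of fun n l => Sum.elim (fun k => X n k) (fun _ => 0) l, ?_, ?_⟩
    · ext (k | k) (l | l)
      · rw [Matrix.add_apply, Matrix.mul_apply]
        exact p k l
      · rw [Matrix.add_apply, Matrix.mul_apply]
        simp [Matrix.toBlocks₁₁, e]
      · rw [Matrix.add_apply, Matrix.mul_apply]
        simp [Matrix.toBlocks₁₁, Matrix.toBlocks₁₂, e]
      · rw [Matrix.add_apply, Matrix.mul_apply]
        simp [Matrix.toBlocks₁₁, Matrix.toBlocks₁₂, e]
    · ext k (l | l)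
      · rw [Matrix.add_apply, Matrix.mul_apply]
        exact q k l
      · rw [Matrix.add_apply, Matrix.mul_apply]
        simp [Matrix.toBlocks₂₁, e]

/-- one may add the multiple `a` of a matrix unit at the cost of `c` unknowns -/
def Qc (U : Subgroup Rˣ) (Y : Set Rˣ) (c : ℕ) (a : R) : Prop :=
  ∀ (κ : Type) [Fintype κ] [DecidableEq κ] (c' : ℕ) (A : Matrix κ κ R) (i j : κ),
    Rep U Y c' A → Rep U Y (c' + c) (A + Matrix.single i j a)

theorem Qc.zero : Qc U Y 0 (0 : R) := by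
  intro κ _ _ c' A i j h
  rw [Matrix.single_zero, add_zero, add_zero]
  exact h

theorem Qc.add {c c' : ℕ} {a b : R} (ha : Qc U Y c a) (hb : Qc U Y c' b) :
    Qc U Y (c + c') (a + b) := by
  intro κ _ _ c'' A i j h
  rw [Matrix.single_add, ← add_assoc, ← add_assoc]
  exact hb _ _ _ i j (ha _ _ _ i j h)

/-- a product of two terms with the opposite sign -/
theorem Qc.mul {c c' : ℕ} {a b : R} (ha : Qc U Y c a) (hb : Qc U Y c' b) :
    Qc U Y (c + c' + 1) (-(a * b)) := by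
  intro κ _ _ c'' A i j h
  have h1 := ha _ _ _ (Sum.inl i) (Sum.inr ()) (h.stab 1 (Or.inr rfl))
  have h2 := hb _ _ _ (Sum.inr ()) (Sum.inl j) h1
  have h3 := h2.of_red (A := A + Matrix.single i j (-(a * b))) (by
    refine ⟨?_, Matrix.of fun _ l => - Matrix.single j j b j l, ?_, ?_⟩
    · have e1 : (fromBlocks A 0 0 (Matrix.of fun _ _ => ((1 : Rˣ) : R))
          + Matrix.single (Sum.inl i) (Sum.inr ()) a
          + Matrix.single (Sum.inr ()) (Sum.inl j) b : Matrix (κ ⊕ Unit) (κ ⊕ Unit) R).toBlocks₂₂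
          = Matrix.of fun _ _ => ((1 : Rˣ) : R) := by
        ext k l
        simp [Matrix.toBlocks₂₂, Matrix.single_apply]
      rw [e1]
      exact Triv.unit (one_mem U)
    · ext k l
      rw [Matrix.add_apply, Matrix.mul_apply]
      by_cases hk : i = k <;> by_cases hl : j = l <;>
        simp [Matrix.toBlocks₁₁, Matrix.toBlocks₁₂, Matrix.single_apply, hk, hl]
    · ext k l
      rw [Matrix.add_apply, Matrix.mul_apply]
      by_cases hl : j = l <;>
        simp [Matrix.toBlocks₂₁, Matrix.toBlocks₂₂, Matrix.single_apply, hl])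
  have e : Fintype.card Unit = 1 := rfl
  rw [e] at h3
  exact h3.mono (by omega)

theorem Qc.inv (hY : ∀ y ∈ Y, y ∈ U) (y : Rˣ) (hy : y ∈ Y ∨ y = 1) :
    Qc U Y 5 (-((y⁻¹ : Rˣ) : R)) := by
  intro κ _ _ c' A i j h
  rw [show Matrix.single i j (-((y⁻¹ : Rˣ) : R)) = - Matrix.single i j ((y⁻¹ : Rˣ) : R) from
    (Matrix.single_neg i j _).symm, ← sub_eq_add_neg]
  exact h.sub hY i j y hy

/-- a swap -/
theorem Triv.swap (hU : (-1 : Rˣ) ∈ U) :
    Triv U (fromBlocks 0 1 1 0 : Matrix (Unit ⊕ Unit) (Unit ⊕ Unit) R) := by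
  have h1 : Triv U (fromBlocks (-1) 0 0 1 : Matrix (Unit ⊕ Unit) (Unit ⊕ Unit) R) := by
    apply Triv.lower _ _ Triv.one
    have := Triv.unit (U := U) hU
    convert this using 1
    ext i j
    simp
  have h2 : Triv U (fromBlocks 1 1 0 1 : Matrix (Unit ⊕ Unit) (Unit ⊕ Unit) R) :=
    Triv.upper _ Triv.one Triv.one
  have h3 : Triv U (fromBlocks 1 0 (-1) 1 : Matrix (Unit ⊕ Unit) (Unit ⊕ Unit) R) :=
    Triv.lower _ Triv.one Triv.one
  have h4 := ((h2.mul h3).mul h2).mul h1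
  convert h4 using 1
  simp only [Matrix.fromBlocks_multiply]
  simp

theorem Qc.pos (hU : (-1 : Rˣ) ∈ U) (hY : ∀ y ∈ Y, y ∈ U) (y : Rˣ) (hy : y ∈ Y ∨ y = 1) :
    Qc U Y 27 (y : R) := by
  intro κ _ _ c' A i j h
  have hyU : y ∈ U := by
    rcases hy with hy | rfl
    · exact hY y hy
    · exact one_mem U
  have q := Qc.inv (U := U) hY 1 (Or.inr rfl)
  have h1 := (h.stab y hy).stab 1 (Or.inr rfl)
  have h2 := q _ _ _ (Sum.inl (Sum.inl i)) (Sum.inr ()) h1
  have h3 := q _ _ _ (Sum.inr ()) (Sum.inl (Sum.inl j)) h2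
  have h4 := q _ _ _ (Sum.inl (Sum.inr ())) (Sum.inr ()) h3
  have h5 := q _ _ _ (Sum.inr ()) (Sum.inl (Sum.inr ())) h4
  have h6 := q _ _ _ (Sum.inr ()) (Sum.inr ()) h5
  -- reassociate the unknowns
  set B := fromBlocks (fromBlocks A 0 0 (Matrix.of fun (_ _ : Unit) => (y : R))) 0 0
    (Matrix.of fun (_ _ : Unit) => ((1 : Rˣ) : R))
    + Matrix.single (Sum.inl (Sum.inl i)) (Sum.inr ()) (-(((1 : Rˣ)⁻¹ : Rˣ) : R))
    + Matrix.single (Sum.inr ()) (Sum.inl (Sum.inl j)) (-(((1 : Rˣ)⁻¹ : Rˣ) : R))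
    + Matrix.single (Sum.inl (Sum.inr ())) (Sum.inr ()) (-(((1 : Rˣ)⁻¹ : Rˣ) : R))
    + Matrix.single (Sum.inr ()) (Sum.inl (Sum.inr ())) (-(((1 : Rˣ)⁻¹ : Rˣ) : R))
    + Matrix.single (Sum.inr ()) (Sum.inr ()) (-(((1 : Rˣ)⁻¹ : Rˣ) : R)) with hB
  have h7 : Rep U Y (c' + 5 + 5 + 5 + 5 + 5)
      (B.submatrix (Equiv.sumAssoc κ Unit Unit).symm (Equiv.sumAssoc κ Unit Unit).symm) := by
    obtain ⟨ν, i1, i2, d, S, T, a1, a2, a3⟩ := h6
    let e : (κ ⊕ (Unit ⊕ Unit)) ⊕ ν ≃ ((κ ⊕ Unit) ⊕ Unit) ⊕ ν :=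
      Equiv.sumCongr (Equiv.sumAssoc κ Unit Unit).symm (Equiv.refl ν)
    refine ⟨ν, i1, i2, fun k => d (e k), e.trans (S.trans e.symm), e.trans (T.trans e.symm), a1,
      fun k => a2 _, ?_⟩
    rw [← mat_submatrix (fun k => (d k : R))]
    obtain ⟨hW, X, b1, b2⟩ := a3
    refine ⟨hW, X.submatrix id (Equiv.sumAssoc κ Unit Unit).symm, ?_, ?_⟩
    · rw [← b1]; rfl
    · ext k l
      exact congrFun (congrFun b2 k) ((Equiv.sumAssoc κ Unit Unit).symm l)
  have h8 := h7.of_red (A := A + Matrix.single i j (y : R)) (by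
    refine ⟨?_, Matrix.of fun a l => Sum.elim (fun _ => - Matrix.single j j (1 : R) j l)
      (fun _ => - Matrix.single j j (y : R) j l) a, ?_, ?_⟩
    · have e1 : (B.submatrix (Equiv.sumAssoc κ Unit Unit).symm
          (Equiv.sumAssoc κ Unit Unit).symm).toBlocks₂₂ * fromBlocks 0 1 1 0
          = fromBlocks (-1) (Matrix.of fun _ _ => (y : R)) 0 (-1) := by
        ext (k | k) (l | l) <;>
          simp [hB, Matrix.toBlocks₂₂, Matrix.single_apply, Matrix.mul_apply]
      refine Triv.of_mul_right (Triv.swap hU) ?_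
      rw [e1]
      have h9 : Triv U (-1 : Matrix Unit Unit R) := by
        have := Triv.unit (U := U) hU
        convert this using 1
        ext i j
        simp
      exact Triv.upper _ h9 h9
    · ext k l
      rw [Matrix.add_apply, Matrix.mul_apply, Fintype.sum_sum_type]
      by_cases hk : i = k <;> by_cases hl : j = l <;>
        simp [hB, Matrix.toBlocks₁₁, Matrix.toBlocks₁₂, Matrix.single_apply, hk, hl]
    · ext (k | k) l
      · rw [Matrix.add_apply, Matrix.mul_apply, Fintype.sum_sum_type]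
        by_cases hl : j = l <;>
          simp [hB, Matrix.toBlocks₂₁, Matrix.toBlocks₂₂, Matrix.single_apply, hl]
      · rw [Matrix.add_apply, Matrix.mul_apply, Fintype.sum_sum_type]
        by_cases hl : j = l <;>
          simp [hB, Matrix.toBlocks₂₁, Matrix.toBlocks₂₂, Matrix.single_apply, hl])
  have e : Fintype.card (Unit ⊕ Unit) = 2 := rfl
  rw [e] at h8
  exact h8.mono (by omega)

end rep

end Pool.Agent.K4H37.MT
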