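import Pool.Agent.K4H37.MT.Red

set_option autoImplicit false
set_option linter.unusedSectionVars false
set_option linter.unusedSimpArgs false

/-!
# Diagonal plus permutation minus permutation: adding a term
-/

namespace Pool.Agent.K4H37.MT

open Matrix TH57.Thr
open scoped commutatorElement

section step

variable {R : Type} [Ring R] {κ μ ν : Type} [Fintype κ] [DecidableEq κ] [Fintype μ] [DecidableEq μ]
  [Fintype ν] [DecidableEq ν] {U : Subgroup Rˣ}

/-- diagonal plus permutation minus permutation -/
def mat (d : κ → R) (S T : Equiv.Perm κ) : Matrix κ κ R :=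
  Matrix.of fun k l => (if k = l then d k else 0) + (if S k = l then 1 else 0)
    - (if T k = l then 1 else 0)

theorem mat_apply (d : κ → R) (S T : Equiv.Perm κ) (k l : κ) :
    mat d S T k l = (if k = l then d k else 0) + (if S k = l then 1 else 0)
    - (if T k = l then 1 else 0) := rfl

theorem mat_sum (d : κ → R) (S T : Equiv.Perm κ) (k : κ) (f : κ → R) :
    ∑ m, mat d S T k m * f m = d k * f k + f (S k) - f (T k) := by
  simp only [mat_apply, sub_mul, add_mul, Finset.sum_sub_distrib, Finset.sum_add_distrib,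
    ite_mul, zero_mul, one_mul, Finset.sum_ite_eq, Finset.mem_univ, if_true]

theorem mat_submatrix (d : κ → R) (S T : Equiv.Perm κ) (e : μ ≃ κ) :
    (mat d S T).submatrix e e = mat (fun k => d (e k)) (e.trans (S.trans e.symm))
      (e.trans (T.trans e.symm)) := by
  ext k l
  simp only [Matrix.submatrix_apply, mat_apply, e.injective.eq_iff, Equiv.trans_apply,
    Equiv.symm_apply_eq]

theorem mat_sum_one (d : κ → R) (S T : Equiv.Perm κ) (y : R) :
    mat (Sum.elim d (fun _ : Unit => y)) (Equiv.sumCongr S 1) (Equiv.sumCongr T 1)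
      = fromBlocks (mat d S T) 0 0 (Matrix.of fun _ _ => y) := by
  ext (k | k) (l | l)
  · simp [mat_apply]
  · simp [mat_apply]
  · simp [mat_apply]
  · simp [mat_apply]

theorem mat_one : mat (fun _ => (1 : R)) (1 : Equiv.Perm κ) 1 = 1 := by
  ext k l
  simp [mat_apply, Matrix.one_apply]

theorem red_of_solution {M : Matrix (κ ⊕ ν) (κ ⊕ ν) R} {A : Matrix κ κ R}
    (Φ : κ ⊕ ν → κ → R) (h0 : ∀ k l, Φ (Sum.inl k) l = if k = l then 1 else 0)
    (h1 : ∀ k l, ∑ m, M (Sum.inl k) m * Φ m l = A k l)
    (h2 : ∀ k l, ∑ m, M (Sum.inr k) m * Φ m l = 0)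
    (hW : Triv U M.toBlocks₂₂) : Red U M A := by
  refine ⟨hW, Matrix.of fun a l => Φ (Sum.inr a) l, ?_, ?_⟩
  · ext k l
    rw [← h1, Fintype.sum_sum_type, Matrix.add_apply, Matrix.mul_apply]
    congr 1
    simp only [h0, mul_ite, mul_one, mul_zero, Finset.sum_ite_eq', Finset.mem_univ, if_true]
    rfl
  · ext k l
    rw [Matrix.zero_apply, ← h2 k l, Fintype.sum_sum_type, Matrix.add_apply, Matrix.mul_apply]
    congr 1
    simp only [h0, mul_ite, mul_one, mul_zero, Finset.sum_ite_eq', Finset.mem_univ, if_true]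
    rfl

/-- a permutation of the new unknowns -/
def sg : Equiv.Perm (Fin 5) := ⟨![4, 0, 1, 2, 3], ![1, 2, 3, 4, 0], by decide, by decide⟩

/-- a permutation of the new unknowns -/
def ta : Equiv.Perm (Fin 5) := ⟨![4, 1, 0, 3, 2], ![2, 1, 4, 3, 0], by decide, by decide⟩

/-- the new second permutation -/
def nT (T : Equiv.Perm κ) (i j : κ) : Equiv.Perm (κ ⊕ Fin 5) :=
  (Equiv.swap (Sum.inl i) (Sum.inr 3)).trans
    ((Equiv.sumCongr T ta).trans (Equiv.swap (Sum.inr 1) (Sum.inl j)))

theorem nT_apply (T : Equiv.Perm κ) (i j : κ) (k : κ ⊕ Fin 5) :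
    nT T i j k = Equiv.swap (Sum.inr 1) (Sum.inl j)
      (Sum.map T ta (Equiv.swap (Sum.inl i) (Sum.inr 3) k)) := rfl

theorem nT_ne (T : Equiv.Perm κ) (i j k : κ) (hk : k ≠ i) :
    nT T i j (Sum.inl k) = if T k = j then Sum.inr 1 else Sum.inl (T k) := by
  have h1 : Equiv.swap (Sum.inl i) (Sum.inr (3 : Fin 5)) (Sum.inl k) = Sum.inl k :=
    Equiv.swap_apply_of_ne_of_ne (by simpa using hk) (by simp)
  rw [nT_apply, h1, Sum.map_inl]
  split_ifs with h
  · rw [h, Equiv.swap_apply_right]
  · exact Equiv.swap_apply_of_ne_of_ne (by simp) (by simpa using h)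

theorem nT_eq (T : Equiv.Perm κ) (i j : κ) : nT T i j (Sum.inl i) = Sum.inr 3 := by
  rw [nT_apply, Equiv.swap_apply_left, Sum.map_inr]
  have h3 : ta 3 = 3 := by decide
  rw [h3]
  exact Equiv.swap_apply_of_ne_of_ne (by simp) (by simp)

theorem nT_three (T : Equiv.Perm κ) (i j : κ) :
    nT T i j (Sum.inr 3) = if T i = j then Sum.inr 1 else Sum.inl (T i) := by
  rw [nT_apply, Equiv.swap_apply_right, Sum.map_inl]
  split_ifs with h
  · rw [h, Equiv.swap_apply_right]
  · exact Equiv.swap_apply_of_ne_of_ne (by simp) (by simpa using h)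

theorem nT_one (T : Equiv.Perm κ) (i j : κ) : nT T i j (Sum.inr 1) = Sum.inl j := by
  have h1 : Equiv.swap (Sum.inl i) (Sum.inr (3 : Fin 5)) (Sum.inr 1) = Sum.inr 1 :=
    Equiv.swap_apply_of_ne_of_ne (by simp) (by simp)
  rw [nT_apply, h1, Sum.map_inr]
  exact Equiv.swap_apply_left _ _

theorem nT_other (T : Equiv.Perm κ) (i j : κ) (a : Fin 5) (h1 : a ≠ 1) (h3 : a ≠ 3) :
    nT T i j (Sum.inr a) = Sum.inr (ta a) := by
  have h4 : Equiv.swap (Sum.inl i) (Sum.inr (3 : Fin 5)) (Sum.inr a) = Sum.inr a :=
    Equiv.swap_apply_of_ne_of_ne (by simp) (by simpa using h3)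
  rw [nT_apply, h4, Sum.map_inr]
  have : ta a ≠ 1 := by
    clear h4 h3; revert a; decide
  exact Equiv.swap_apply_of_ne_of_ne (by simpa using this) (by simp)

/-- the new diagonal -/
def nd (d : κ → Rˣ) (y : Rˣ) : κ ⊕ Fin 5 → Rˣ := Sum.elim d ![1, 1, y, 1, 1]

/-- the solution for the new unknowns -/
def sol (y : Rˣ) (a j : κ) : κ ⊕ Fin 5 → κ → R
  | Sum.inl k => fun l => if k = l then 1 else 0
  | Sum.inr b => ![(fun _ => 0), (fun l => if j = l then 1 else 0),
      (fun l => - (((y⁻¹ : Rˣ) : R) * if j = l then 1 else 0)),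
      (fun l => (if a = l then 1 else 0) + ((y⁻¹ : Rˣ) : R) * if j = l then 1 else 0),
      (fun l => - (((y⁻¹ : Rˣ) : R) * if j = l then 1 else 0) -
        ((if a = l then 1 else 0) + ((y⁻¹ : Rˣ) : R) * if j = l then 1 else 0))] b

theorem step (d : κ → Rˣ) (S T : Equiv.Perm κ) (i j : κ) (y : Rˣ) (hy : y ∈ U) :
    Red U (mat (fun k => (nd d y k : R)) (Equiv.sumCongr S sg) (nT T i j))
      (mat (fun k => (d k : R)) S T - Matrix.single i j ((y⁻¹ : Rˣ) : R)) := by
  refine red_of_solution (sol y (T i) j) (fun k l => rfl) ?_ ?_ ?_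
  · intro k l
    rw [mat_sum, Matrix.sub_apply, mat_apply]
    by_cases hk : k = i
    · subst hk
      rw [nT_eq, Matrix.single_apply]
      simp [nd, sol]
      by_cases hj : j = l
      · subst hj; simp; abel
      · simp [hj]
    · have hk' : ¬ (i = k ∧ j = l) := fun h => hk h.1.symm
      rw [nT_ne _ _ _ _ hk, Matrix.single_apply, if_neg hk']
      by_cases hT : T k = j
      · rw [if_pos hT]
        simp [nd, sol, hT]
      · rw [if_neg hT]
        simp [nd, sol]
  · intro a l
    rw [mat_sum]
    fin_cases a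
    · change _ + _ - sol y (T i) j (nT T i j (Sum.inr 0)) l = 0
      rw [nT_other _ _ _ 0 (by decide) (by decide)]
      simp [nd, sol, sg, ta]
    · change _ + _ - sol y (T i) j (nT T i j (Sum.inr 1)) l = 0
      rw [nT_one]
      simp [nd, sol, sg]
    · change _ + _ - sol y (T i) j (nT T i j (Sum.inr 2)) l = 0
      rw [nT_other _ _ _ 2 (by decide) (by decide)]
      simp [nd, sol, sg, ta]
    · change _ + _ - sol y (T i) j (nT T i j (Sum.inr 3)) l = 0
      rw [nT_three]
      by_cases hT : T i = j
      · rw [if_pos hT]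
        simp [nd, sol, sg, hT]
      · rw [if_neg hT]
        simp [nd, sol, sg]
    · change _ + _ - sol y (T i) j (nT T i j (Sum.inr 4)) l = 0
      rw [nT_other _ _ _ 4 (by decide) (by decide)]
      simp [nd, sol, sg, ta]
  · apply Triv.fin
    · intro a b hab
      change mat (fun k => (nd d y k : R)) (Equiv.sumCongr S sg) (nT T i j)
        (Sum.inr a) (Sum.inr b) = 0
      rw [mat_apply]
      have hne : (Sum.inr a : κ ⊕ Fin 5) ≠ Sum.inr b := by simpa using ne_of_lt hab
      rw [if_neg hne, zero_add, Equiv.sumCongr_apply, Sum.map_inr]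
      clear hne
      by_cases h1 : a = 1
      · subst h1
        have h2 : sg 1 ≠ b := by revert hab; revert b; decide
        rw [nT_one, if_neg (by simpa using h2), if_neg (by simp), sub_zero]
      · by_cases h3 : a = 3
        · subst h3
          rw [nT_three]
          have hb : b = 4 := by revert hab; revert b; decide
          subst hb
          rw [if_neg (by simp [sg]), if_neg (by split_ifs <;> simp), sub_zero]
        · rw [nT_other _ _ _ a h1 h3]
          have : (sg a = b ↔ ta a = b) := by
            revert hab h1 h3; revert a b; decide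
          simp only [Sum.inr.injEq, this, sub_self]
    · intro a
      change ∃ u ∈ U, mat (fun k => (nd d y k : R)) (Equiv.sumCongr S sg) (nT T i j)
        (Sum.inr a) (Sum.inr a) = (u : R)
      rw [mat_apply, if_pos rfl, Equiv.sumCongr_apply, Sum.map_inr]
      refine ⟨(![1, 1, y, 1, 1] : Fin 5 → Rˣ) a, ?_, ?_⟩
      · fin_cases a
        · exact one_mem U
        · exact one_mem U
        · exact hy
        · exact one_mem U
        · exact one_mem U
      · have hs : sg a ≠ a := by revert a; decide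
        rw [if_neg (by simpa using hs), add_zero]
        rw [if_neg, sub_zero]
        · rfl
        · by_cases h1 : a = 1
          · subst h1; rw [nT_one]; simp
          · by_cases h3 : a = 3
            · subst h3; rw [nT_three]; split_ifs <;> simp
            · rw [nT_other _ _ _ a h1 h3]
              have : ta a ≠ a := by revert h1 h3; revert a; decide
              simpa using this

end step

end Pool.Agent.K4H37.MT
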