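import Pool.Agent.K4H37.MT.Fin

set_option autoImplicit false
set_option linter.unusedSectionVars false
set_option linter.unusedSimpArgs false

/-!
# Invertible matrices with at most two terms in each row
-/

namespace Pool.Agent.K4H37.MT

open Matrix TH57.Thr
open scoped commutatorElement

open Pool.Agent.K4H37.UG (size1 size)

variable {G : Type} [Group G]

theorem size1_zero_iff (x : MonoidAlgebra ℤ G) : size1 x = 0 ↔ x = 0 := by
  constructor
  · intro h
    unfold size1 at h
    rw [Finset.sum_eq_zero_iff] at h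
    apply MonoidAlgebra.coeff_injective
    ext g
    by_cases hg : g ∈ x.coeff.support
    · exact Int.natAbs_eq_zero.1 (h g hg)
    · exact Finsupp.notMem_support_iff.1 hg
  · rintro rfl
    simp [size1]

/-- a term `± g` -/
theorem size1_one {x : MonoidAlgebra ℤ G} (h : size1 x = 1) :
    ∃ (g : G) (ε : ℤˣ), x = MonoidAlgebra.single g (ε : ℤ) := by
  classical
  unfold size1 at h
  have h1 : ∃ g ∈ x.coeff.support, (x.coeff g).natAbs ≠ 0 := by
    by_contra h2
    push Not at h2
    rw [Finset.sum_eq_zero h2] at h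
    omega
  obtain ⟨g, hg, _⟩ := h1
  have hpos : ∀ k ∈ x.coeff.support, 1 ≤ (x.coeff k).natAbs := fun k hk =>
    Nat.one_le_iff_ne_zero.2 (Int.natAbs_ne_zero.2 (Finsupp.mem_support_iff.1 hk))
  have h2 : (x.coeff g).natAbs ≤ 1 := by
    rw [← h]
    exact Finset.single_le_sum (f := fun g => (x.coeff g).natAbs) (fun _ _ => Nat.zero_le _) hg
  have h3 : (x.coeff g).natAbs = 1 := le_antisymm h2 (hpos g hg)
  have h4 : x.coeff.support = {g} := by
    apply Finset.eq_singleton_iff_unique_mem.2 ⟨hg, fun k hk => ?_⟩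
    by_contra hkg
    have h5 : (x.coeff g).natAbs + (x.coeff k).natAbs ≤ 1 := by
      rw [← h, ← Finset.sum_pair (f := fun g => (x.coeff g).natAbs) (Ne.symm hkg)]
      exact Finset.sum_le_sum_of_subset (by
        intro y hy
        rw [Finset.mem_insert, Finset.mem_singleton] at hy
        rcases hy with rfl | rfl
        · exact hg
        · exact hk)
    have := hpos k hk
    omega
  obtain ⟨ε, hε⟩ : ∃ ε : ℤˣ, (ε : ℤ) = x.coeff g := by
    rcases Int.natAbs_eq_iff.1 h3 with h5 | h5
    · exact ⟨1, by rw [h5]; rfl⟩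
    · exact ⟨-1, by rw [h5]; rfl⟩
  refine ⟨g, ε, ?_⟩
  apply MonoidAlgebra.coeff_injective
  rw [MonoidAlgebra.coeff_single, hε]
  exact (Finsupp.support_eq_singleton.1 h4).2

/-- the augmentation modulo two -/
noncomputable def aug2 : MonoidAlgebra ℤ G →+* ZMod 2 :=
  (Int.castRingHom (ZMod 2)).comp (MonoidAlgebra.lift ℤ ℤ G (1 : G →* ℤ)).toRingHom

theorem aug2_single (g : G) (z : ℤ) : aug2 (MonoidAlgebra.single g z) = (z : ZMod 2) := by
  simp [aug2]

theorem aug2_size (x : MonoidAlgebra ℤ G) : aug2 x = (size1 x : ZMod 2) := by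
  have h1 : x = ∑ g ∈ x.coeff.support, MonoidAlgebra.single g (x.coeff g) := by
    apply MonoidAlgebra.coeff_injective
    rw [MonoidAlgebra.coeff_sum]
    exact (Finsupp.sum_single x.coeff).symm
  conv_lhs => rw [h1]
  rw [map_sum]
  unfold size1
  push_cast
  apply Finset.sum_congr rfl
  intro g _
  rw [aug2_single]
  rw [← Int.cast_natCast (R := ZMod 2), Int.natCast_natAbs, ZMod.intCast_eq_intCast_iff_dvd_sub]
  push_cast
  rcases abs_choice (x.coeff g) with h | h
  · rw [h]; simp
  · rw [h]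
    exact ⟨-x.coeff g, by ring⟩

/-- a row with exactly one term -/
theorem exists_row {κ : Type} [Fintype κ] [DecidableEq κ] [Nonempty κ]
    (A : (Matrix κ κ (MonoidAlgebra ℤ G))ˣ) (h : ∀ i, ∑ j, size1 (A.val i j) ≤ 2) :
    ∃ i j, size1 (A.val i j) = 1 ∧ ∀ l, l ≠ j → A.val i l = 0 := by
  have h1 : ∃ i, ∑ j, size1 (A.val i j) = 1 := by
    by_contra hcon
    push Not at hcon
    have h2 : (A.val.map aug2).mulVec (fun _ => 1) = 0 := by
      funext i
      simp only [Matrix.mulVec, dotProduct, Matrix.map_apply, mul_one, aug2_size]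
      rw [← Nat.cast_sum]
      have h3 := h i
      have h4 := hcon i
      have h5 : ∑ j, size1 (A.val i j) = 0 ∨ ∑ j, size1 (A.val i j) = 2 := by omega
      rcases h5 with h5 | h5
      · rw [h5]; rfl
      · rw [h5]; rfl
    have h3 : (A⁻¹).val.map aug2 * (A.val.map aug2) = 1 := by
      rw [← Matrix.map_mul, Units.inv_mul]
      exact Matrix.map_one _ (map_zero aug2) (map_one aug2)
    have h4 : ((A⁻¹).val.map aug2 * (A.val.map aug2)).mulVec (fun _ => 1) = 0 := by
      rw [← Matrix.mulVec_mulVec, h2, Matrix.mulVec_zero]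
    rw [h3, Matrix.one_mulVec] at h4
    obtain ⟨i⟩ := ‹Nonempty κ›
    have h5 := congrFun h4 i
    simp at h5
  obtain ⟨i, hi⟩ := h1
  have h2 : ∃ j, size1 (A.val i j) ≠ 0 := by
    by_contra hcon
    push Not at hcon
    rw [Finset.sum_eq_zero (fun j _ => hcon j)] at hi
    omega
  obtain ⟨j, hj⟩ := h2
  have h3 : ∑ l ∈ Finset.univ.erase j, size1 (A.val i l) + size1 (A.val i j) = 1 := by
    rw [← hi]
    exact Finset.sum_erase_add _ _ (Finset.mem_univ j)
  have h4 : ∑ l ∈ Finset.univ.erase j, size1 (A.val i l) = 0 := by omega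
  rw [Finset.sum_eq_zero_iff] at h4
  exact ⟨i, j, by omega, fun l hl =>
    (size1_zero_iff _).1 (h4 l (Finset.mem_erase.2 ⟨hl, Finset.mem_univ l⟩))⟩

/-- the corner of a block triangular invertible matrix -/
theorem corner_unit {R : Type} [Ring R] {κ μ : Type} [Fintype κ] [DecidableEq κ] [Fintype μ]
    [DecidableEq μ] (x : (Matrix (κ ⊕ μ) (κ ⊕ μ) R)ˣ) (a : Matrix κ κ R) (c : Matrix κ μ R)
    (b : (Matrix μ μ R)ˣ) (hx : x.val = fromBlocks a c 0 b.val) :
    ∃ a' : (Matrix κ κ R)ˣ, a'.val = a := by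
  have h1 := x.mul_inv
  have h2 := x.inv_mul
  rw [hx, ← Matrix.fromBlocks_toBlocks (x⁻¹).val, Matrix.fromBlocks_multiply,
    ← Matrix.fromBlocks_one, Matrix.fromBlocks_inj] at h1
  rw [hx, ← Matrix.fromBlocks_toBlocks (x⁻¹).val, Matrix.fromBlocks_multiply,
    ← Matrix.fromBlocks_one, Matrix.fromBlocks_inj] at h2
  obtain ⟨h3, _, h4, _⟩ := h1
  obtain ⟨h5, _, _, _⟩ := h2
  have h6 : (x⁻¹).val.toBlocks₂₁ = 0 := by
    have h7 : b.val * (x⁻¹).val.toBlocks₂₁ = 0 := by
      rw [← h4, Matrix.zero_mul, zero_add]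
    calc (x⁻¹).val.toBlocks₂₁ = ((b⁻¹).val * b.val) * (x⁻¹).val.toBlocks₂₁ := by
          rw [Units.inv_mul, Matrix.one_mul]
      _ = 0 := by rw [Matrix.mul_assoc, h7, Matrix.mul_zero]
  rw [h6, Matrix.mul_zero, add_zero] at h3
  rw [Matrix.mul_zero, add_zero] at h5
  exact ⟨⟨a, _, h3, h5⟩, rfl⟩

theorem pu_mul_apply {R : Type} [Ring R] {κ : Type} [Fintype κ] [DecidableEq κ]
    (A : Matrix κ κ R) (e : Equiv.Perm κ) (k l : κ) :
    (A * (pu e : (Matrix κ κ R)ˣ).val) k l = A k (e.symm l) := by
  rw [Matrix.mul_apply]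
  simp only [pu_apply, mul_ite, mul_one, mul_zero]
  rw [Finset.sum_eq_single (e.symm l)]
  · simp
  · intro b _ hb
    rw [if_neg]
    intro h
    exact hb (by rw [← h]; simp)
  · intro h
    exact absurd (Finset.mem_univ _) h

theorem two_rows : ∀ (n : ℕ) (κ : Type) [Fintype κ] [DecidableEq κ], Fintype.card κ = n →
    ∀ (A : (Matrix κ κ (MonoidAlgebra ℤ G))ˣ), (∀ i, ∑ j, size1 (A.val i j) ≤ 2) →
    TT (TU G) A
  | 0, κ, _, _, hn, A, _ => by
    have : IsEmpty κ := Fintype.card_eq_zero_iff.1 hn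
    have h1 : A = 1 := by
      apply Units.ext
      ext1 i
      exact this.elim i
    rw [h1]
    exact TT_one _
  | n + 1, κ, _, _, hn, A, h => by
    have hne : Nonempty κ := Fintype.card_pos_iff.1 (by omega)
    obtain ⟨i, j, hij, h0⟩ := exists_row A h
    obtain ⟨g, ε, hgε⟩ := size1_one hij
    -- move the entry to the diagonal
    let σ : Equiv.Perm κ := Equiv.swap i j
    have hσ : σ.symm = σ := Equiv.symm_swap i j
    let B : (Matrix κ κ (MonoidAlgebra ℤ G))ˣ := A * pu σ
    have hB : ∀ k l, B.val k l = A.val k (σ l) := by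
      intro k l
      change (A.val * (pu σ : (Matrix κ κ (MonoidAlgebra ℤ G))ˣ).val) k l = _
      rw [pu_mul_apply, hσ]
    have hBTT : TT (TU G) B → TT (TU G) A := by
      intro hB'
      have : A = B * (pu σ)⁻¹ := by simp [B]
      rw [this]
      exact TT_mul _ _ _ hB' (TT_inv _ _ (TT_perm σ))
    apply hBTT
    -- block form
    let e : {k // k ≠ i} ⊕ Unit ≃ κ :=
      { toFun := Sum.elim (fun k => k.1) (fun _ => i)
        invFun := fun k => if hk : k ≠ i then Sum.inl ⟨k, hk⟩ else Sum.inr ()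
        left_inv := by
          rintro (k | k)
          · simp [k.2]
          · simp
        right_inv := by
          intro k
          by_cases hk : k = i
          · simp [hk]
          · simp [hk] }
    have hu : (tu' g ε) ∈ TU G := ⟨g, ε, rfl⟩
    obtain ⟨b, hb, hbT⟩ := Triv.unit (U := TU G) hu
    have hform : (Units.map (re e) B : (Matrix ({k // k ≠ i} ⊕ Unit) ({k // k ≠ i} ⊕ Unit)
        (MonoidAlgebra ℤ G))ˣ).val = fromBlocks (Matrix.of fun k l => B.val k.1 l.1)
        (Matrix.of fun k _ => B.val k.1 i) 0 b.val := by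
      rw [hb]
      ext1 (k | k) (l | l)
      · rfl
      · rfl
      · change B.val i l.1 = 0
        rw [hB]
        apply h0
        intro h1
        have h2 : l.1 = i := by
          have h3 : σ (σ l.1) = σ j := by rw [h1]
          rw [show σ (σ l.1) = l.1 from Equiv.swap_apply_self i j l.1] at h3
          rw [h3]
          exact Equiv.swap_apply_right i j
        exact l.2 h2
      · change B.val i i = _
        rw [hB, show σ i = j from Equiv.swap_apply_left i j, hgε]
        rfl
    obtain ⟨a, ha⟩ := corner_unit _ _ _ _ hform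
    have hcard : Fintype.card {k // k ≠ i} = n := by
      have := Fintype.card_congr e
      rw [Fintype.card_sum, hn] at this
      have h1 : Fintype.card Unit = 1 := rfl
      omega
    have haT : TT (TU G) a := by
      apply two_rows n {k // k ≠ i} hcard a
      intro k
      rw [ha]
      have h1 : ∑ l : {k // k ≠ i}, size1 (B.val k.1 l.1) ≤ ∑ l, size1 (B.val k.1 l) := by
        rw [← Equiv.sum_comp e (fun l => size1 (B.val k.1 l)), Fintype.sum_sum_type]
        exact Nat.le_add_right _ _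
      refine h1.trans ?_
      have h2 : ∑ l, size1 (B.val k.1 l) = ∑ l, size1 (A.val k.1 l) := by
        simp only [hB]
        exact Equiv.sum_comp σ (fun l => size1 (A.val k.1 l))
      rw [h2]
      exact h k.1
    obtain ⟨x, hx, hxT⟩ := Triv.upper (Matrix.of fun k _ => B.val k.1 i)
      (⟨a, ha, haT⟩ : Triv (TU G) (Matrix.of fun (k l : {k // k ≠ i}) => B.val k.1 l.1))
      (⟨b, rfl, hbT⟩ : Triv (TU G) b.val)
    have hx2 : x = Units.map (re e) B := Units.ext (by rw [hx, hform])
    rw [hx2] at hxT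
    have h4 := TT_re (TU G) e.symm _ hxT
    convert h4 using 1
    apply Units.ext
    ext1 k l
    change B.val k l = B.val (e (e.symm k)) (e (e.symm l))
    rw [Equiv.apply_symm_apply, Equiv.apply_symm_apply]

end Pool.Agent.K4H37.MT
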